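import Pool.Agent.W5h2.DP.V
import Pool.Agent.W5h2.DP.H
import Pool.Agent.W5h2.DP.T
import Pool.Agent.W5h2.DP.U
import Pool.Agent.W5h2.DP.I
import Pool.Agent.W5h2.DP.M
import Pool.Agent.W5h2.DP.E1
import Pool.Agent.W5h2.DP.E2
import Pool.Agent.W5h2.DP.Un
import Pool.Agent.W5h2.DP.LB
import Pool.Agent.W5h2.DP.Main

/-!
# MP_eddf4b_co: the number of independent and of minimal dominating sets of a projective plane
-/

set_option autoImplicit false

namespace Pool.Agent.Results.MP_eddf4b_co.ThreeHalvesPower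

open Configuration Pool.Agent.W5h2.DP

open Classical in
theorem result : ∃ c C : ℝ, 0 < c ∧ ∃ q₀ : ℕ, ∀ (P L : Type) [Fintype P] [Fintype L]
    [Membership P L] [ProjectivePlane P L] (q : ℕ), q = ProjectivePlane.order P L →
    -- all planes: lower bound
    (q₀ ≤ q → c * q * Real.logb 2 q ^ 2 ≤ Real.logb 2 (numInd P L)) ∧
    -- all planes: upper bounds
    (Real.logb 2 (numInd P L) ≤ C * (q : ℝ) ^ (3 / 2 : ℝ)) ∧
    (Real.logb 2 (numInd P L) ≤ Real.logb 2 (numMin P L)) ∧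
    (Real.logb 2 (numMin P L) ≤ C * (q : ℝ) ^ (3 / 2 : ℝ) * Real.logb 2 q) ∧
    -- tangency sets
    (∀ U : Finset P, Tan P L U → (U.card : ℝ) ≤ Real.logb 2 (numInd P L)) ∧
    -- planes with a unital
    ∀ (r : ℕ) (U : Finset P), q = r ^ 2 → U.card = r ^ 3 + 1 →
      (∀ l : L, (U.filter fun p => p ∈ l).card = 1 ∨ (U.filter fun p => p ∈ l).card = r + 1) →
      (q : ℝ) ^ (3 / 2 : ℝ) ≤ Real.logb 2 (numInd P L) := by
  obtain ⟨C₁, h1⟩ := log_ind (h v) e1 u
  obtain ⟨C₂, h2⟩ := log_min (t v) m e2 u i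
  obtain ⟨c, hc, q₀, h0⟩ := lb
  refine ⟨c, max C₁ C₂, hc, q₀, fun P L _ _ _ _ q hq => ?_⟩
  have hq2 : 2 ≤ q := by
    rw [hq]
    exact ProjectivePlane.one_lt_order P L
  have hl : 0 ≤ Real.logb 2 (q : ℝ) :=
    Real.logb_nonneg (by norm_num) (by exact_mod_cast (by omega : 1 ≤ q))
  have hp : (0 : ℝ) ≤ (q : ℝ) ^ (3 / 2 : ℝ) := by positivity
  refine ⟨fun h => h0 P L q hq h,
    (h1 P L q hq).trans (mul_le_mul_of_nonneg_right (le_max_left _ _) hp),
    (h2 P L q hq).1, (h2 P L q hq).2.trans ?_, fun U hU => card_le_log u P L U hU, ?_⟩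
  · exact mul_le_mul_of_nonneg_right (mul_le_mul_of_nonneg_right (le_max_right _ _) hp) hl
  · intro r U hr hU hl
    have h3 : Tan P L U := un P L r (hq ▸ hr) U hU hl
    refine le_trans ?_ (card_le_log u P L U h3)
    have h4 : (q : ℝ) ^ (3 / 2 : ℝ) = (r : ℝ) ^ 3 := by
      rw [hr]
      push_cast
      rw [← Real.rpow_natCast (r : ℝ) 2, ← Real.rpow_mul (Nat.cast_nonneg r),
        ← Real.rpow_natCast (r : ℝ) 3]
      norm_num
    rw [h4, hU]
    push_cast
    linarith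

end Pool.Agent.Results.MP_eddf4b_co.ThreeHalvesPower
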